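import Pool.Agent.H59.ERC.Dfs

/-!
# MP_816b90_co: the graph of helper50 with 33 vertices

Vertex `0` is `t`; the module `j` has the vertices `8 j + 1, .., 8 j + 8`.
-/

set_option autoImplicit false
set_option maxRecDepth 100000

namespace Pool.Agent.H59.ERC

/-- the rows of the adjacency matrix as bit masks -/
def rows : List ℕ := [
  235802126, 8589934145, 7507738137, 7507738149, 235802244, 235802376, 235799426, 235016016,
  34475744, 8589820415, 6425549247, 6425552319, 235832334, 235866126, 235110926, 34557966,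
  235855874, 8560705535, 4263100287, 4263886719, 243535374, 252186126, 58854926, 256904706,
  249561614, 1107296255, 431980287, 633306879, 2215513614, 4430106126, 6476926466, 5638062606,
  3758231054]

/-- the neighbours -/
def nbs : List (List ℕ) := [
  [1, 2, 3, 9, 10, 11, 17, 18, 19, 25, 26, 27],
  [0, 6, 9, 10, 11, 12, 13, 14, 15, 16, 17, 18, 19, 20, 21, 22, 23, 24, 25, 26, 27, 28, 29, 30, 31, 32],
  [0, 3, 4, 9, 10, 11, 12, 13, 14, 15, 17, 18, 19, 20, 21, 22, 24, 25, 26, 27, 28, 29, 31, 32],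
  [0, 2, 5, 9, 10, 11, 12, 13, 14, 15, 17, 18, 19, 20, 21, 22, 24, 25, 26, 27, 28, 29, 31, 32],
  [2, 7, 9, 10, 11, 17, 18, 19, 25, 26, 27], [3, 8, 9, 10, 11, 17, 18, 19, 25, 26, 27],
  [1, 7, 8, 9, 17, 18, 19, 25, 26, 27], [4, 6, 8, 9, 10, 11, 17, 25, 26, 27],
  [5, 6, 7, 9, 10, 11, 17, 18, 19, 25],
  [0, 1, 2, 3, 4, 5, 6, 7, 8, 14, 17, 18, 19, 20, 21, 22, 23, 24, 25, 26, 27, 28, 29, 30, 31, 32],
  [0, 1, 2, 3, 4, 5, 7, 8, 11, 12, 17, 18, 19, 20, 21, 22, 23, 25, 26, 27, 28, 29, 30, 32],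
  [0, 1, 2, 3, 4, 5, 7, 8, 10, 13, 17, 18, 19, 20, 21, 22, 23, 25, 26, 27, 28, 29, 30, 32],
  [1, 2, 3, 10, 15, 17, 18, 19, 25, 26, 27], [1, 2, 3, 11, 16, 17, 18, 19, 25, 26, 27],
  [1, 2, 3, 9, 15, 16, 17, 25, 26, 27], [1, 2, 3, 12, 14, 16, 17, 18, 19, 25],
  [1, 13, 14, 15, 17, 18, 19, 25, 26, 27],
  [0, 1, 2, 3, 4, 5, 6, 7, 8, 9, 10, 11, 12, 13, 14, 15, 16, 22, 25, 26, 27, 28, 29, 30, 31, 32],
  [0, 1, 2, 3, 4, 5, 6, 8, 9, 10, 11, 12, 13, 15, 16, 19, 20, 25, 26, 27, 28, 29, 30, 31],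
  [0, 1, 2, 3, 4, 5, 6, 8, 9, 10, 11, 12, 13, 15, 16, 18, 21, 25, 26, 27, 28, 29, 30, 31],
  [1, 2, 3, 9, 10, 11, 18, 23, 25, 26, 27], [1, 2, 3, 9, 10, 11, 19, 24, 25, 26, 27],
  [1, 2, 3, 9, 10, 11, 17, 23, 24, 25], [1, 9, 10, 11, 20, 22, 24, 25, 26, 27],
  [1, 2, 3, 9, 21, 22, 23, 25, 26, 27],
  [0, 1, 2, 3, 4, 5, 6, 7, 8, 9, 10, 11, 12, 13, 14, 15, 16, 17, 18, 19, 20, 21, 22, 23, 24, 30],
  [0, 1, 2, 3, 4, 5, 6, 7, 9, 10, 11, 12, 13, 14, 16, 17, 18, 19, 20, 21, 23, 24, 27, 28],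
  [0, 1, 2, 3, 4, 5, 6, 7, 9, 10, 11, 12, 13, 14, 16, 17, 18, 19, 20, 21, 23, 24, 26, 29],
  [1, 2, 3, 9, 10, 11, 17, 18, 19, 26, 31], [1, 2, 3, 9, 10, 11, 17, 18, 19, 27, 32],
  [1, 9, 10, 11, 17, 18, 19, 25, 31, 32], [1, 2, 3, 9, 17, 18, 19, 28, 30, 32],
  [1, 2, 3, 9, 10, 11, 17, 29, 30, 31]]

/-- the rows of the complement -/
def crows : List ℕ := [
  8354132464, 444, 1082196450, 1082196434, 8354132331, 8354132183, 8354135101, 8354918447,
  8555458591, 113664, 2164384320, 2164380224, 8354098161, 8354060273, 8354807281, 8555343857,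
  8354013181, 29097984, 4326572160, 4325523584, 8345350641, 8335651313, 8526885361, 8324641277,
  8323595761, 7449083904, 8090845440, 7822409984, 6105985521, 3622957553, 1039266301,
  804388337, 536736241]

/-- the neighbours in the complement -/
def cnbs : List (List ℕ) := [
  [4, 5, 6, 7, 8, 12, 13, 14, 15, 16, 20, 21, 22, 23, 24, 28, 29, 30, 31, 32],
  [2, 3, 4, 5, 7, 8], [1, 5, 6, 7, 8, 16, 23, 30], [1, 4, 6, 7, 8, 16, 23, 30],
  [0, 1, 3, 5, 6, 8, 12, 13, 14, 15, 16, 20, 21, 22, 23, 24, 28, 29, 30, 31, 32],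
  [0, 1, 2, 4, 6, 7, 12, 13, 14, 15, 16, 20, 21, 22, 23, 24, 28, 29, 30, 31, 32],
  [0, 2, 3, 4, 5, 10, 11, 12, 13, 14, 15, 16, 20, 21, 22, 23, 24, 28, 29, 30, 31, 32],
  [0, 1, 2, 3, 5, 12, 13, 14, 15, 16, 18, 19, 20, 21, 22, 23, 24, 28, 29, 30, 31, 32],
  [0, 1, 2, 3, 4, 12, 13, 14, 15, 16, 20, 21, 22, 23, 24, 26, 27, 28, 29, 30, 31, 32],
  [10, 11, 12, 13, 15, 16], [6, 9, 13, 14, 15, 16, 24, 31], [6, 9, 12, 14, 15, 16, 24, 31],
  [0, 4, 5, 6, 7, 8, 9, 11, 13, 14, 16, 20, 21, 22, 23, 24, 28, 29, 30, 31, 32],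
  [0, 4, 5, 6, 7, 8, 9, 10, 12, 14, 15, 20, 21, 22, 23, 24, 28, 29, 30, 31, 32],
  [0, 4, 5, 6, 7, 8, 10, 11, 12, 13, 18, 19, 20, 21, 22, 23, 24, 28, 29, 30, 31, 32],
  [0, 4, 5, 6, 7, 8, 9, 10, 11, 13, 20, 21, 22, 23, 24, 26, 27, 28, 29, 30, 31, 32],
  [0, 2, 3, 4, 5, 6, 7, 8, 9, 10, 11, 12, 20, 21, 22, 23, 24, 28, 29, 30, 31, 32],
  [18, 19, 20, 21, 23, 24], [7, 14, 17, 21, 22, 23, 24, 32], [7, 14, 17, 20, 22, 23, 24, 32],
  [0, 4, 5, 6, 7, 8, 12, 13, 14, 15, 16, 17, 19, 21, 22, 24, 28, 29, 30, 31, 32],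
  [0, 4, 5, 6, 7, 8, 12, 13, 14, 15, 16, 17, 18, 20, 22, 23, 28, 29, 30, 31, 32],
  [0, 4, 5, 6, 7, 8, 12, 13, 14, 15, 16, 18, 19, 20, 21, 26, 27, 28, 29, 30, 31, 32],
  [0, 2, 3, 4, 5, 6, 7, 8, 12, 13, 14, 15, 16, 17, 18, 19, 21, 28, 29, 30, 31, 32],
  [0, 4, 5, 6, 7, 8, 10, 11, 12, 13, 14, 15, 16, 17, 18, 19, 20, 28, 29, 30, 31, 32],
  [26, 27, 28, 29, 31, 32], [8, 15, 22, 25, 29, 30, 31, 32], [8, 15, 22, 25, 28, 30, 31, 32],
  [0, 4, 5, 6, 7, 8, 12, 13, 14, 15, 16, 20, 21, 22, 23, 24, 25, 27, 29, 30, 32],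
  [0, 4, 5, 6, 7, 8, 12, 13, 14, 15, 16, 20, 21, 22, 23, 24, 25, 26, 28, 30, 31],
  [0, 2, 3, 4, 5, 6, 7, 8, 12, 13, 14, 15, 16, 20, 21, 22, 23, 24, 26, 27, 28, 29],
  [0, 4, 5, 6, 7, 8, 10, 11, 12, 13, 14, 15, 16, 20, 21, 22, 23, 24, 25, 26, 27, 29],
  [0, 4, 5, 6, 7, 8, 12, 13, 14, 15, 16, 18, 19, 20, 21, 22, 23, 24, 25, 26, 27, 28]]

/-- the interiors of odd chordless paths -/
def cert : List (List (List ℕ)) := [

  [[], [], [], [], [3, 5, 8, 7], [2, 4, 7, 8], [10, 7], [1, 6], [1, 6], [], [], [], [11, 13, 16, 15], [10, 12, 15, 16], [18, 15], [9, 14], [2, 13], [], [], [], [19, 21, 24, 23], [18, 20, 23, 24], [26, 23], [2, 20], [10, 21], [], [], [], [27, 29, 32, 31], [26, 28, 31, 32], [2, 31], [10, 28], [18, 29]],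
  [[], [], [6, 8, 5, 3], [6, 7, 4, 2], [0, 2], [0, 3], [], [18, 4], [26, 5], [], [], [], [], [], [], [], [], [], [], [], [], [], [], [], [], [], [], [], [], [], [], [], []],
  [[], [3, 5, 8, 6], [], [], [], [0, 1, 6, 8], [0, 1], [18, 6], [3, 5], [], [], [], [], [], [], [], [0, 1], [], [], [], [], [], [], [0, 1], [], [], [], [], [], [], [0, 1], [], []],
  [[], [2, 4, 7, 6], [], [], [0, 1, 6, 7], [], [0, 1], [2, 4], [26, 6], [], [], [], [], [], [], [], [0, 1], [], [], [], [], [], [], [0, 1], [], [], [], [], [], [], [0, 1], [], []],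
  [[7, 8, 5, 3], [2, 0], [], [7, 6, 1, 0], [], [2, 3], [10, 1], [], [26, 5], [], [], [], [9, 1], [9, 1], [10, 1], [9, 1], [2, 13], [], [], [], [17, 1], [17, 1], [18, 1], [2, 20], [10, 1], [], [], [], [25, 1], [25, 1], [2, 31], [10, 1], [18, 1]],
  [[8, 7, 4, 2], [3, 0], [8, 6, 1, 0], [], [3, 2], [], [10, 1], [18, 4], [], [], [], [], [9, 1], [9, 1], [10, 1], [9, 1], [3, 13], [], [], [], [17, 1], [17, 1], [18, 1], [3, 20], [10, 1], [], [], [], [25, 1], [25, 1], [3, 31], [10, 1], [18, 1]],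
  [[7, 10], [], [1, 0], [1, 0], [1, 10], [1, 10], [], [], [], [], [9, 0], [9, 0], [7, 10], [7, 11], [18, 2], [9, 2], [9, 14], [], [], [], [7, 10], [7, 10], [7, 10], [7, 10], [17, 2], [], [], [], [7, 10], [7, 10], [7, 10], [25, 2], [7, 10]],
  [[4, 2], [4, 18], [6, 18], [4, 2], [], [4, 18], [], [], [], [], [], [], [4, 2], [4, 2], [4, 2], [4, 2], [4, 18], [], [17, 0], [17, 0], [4, 2], [4, 2], [4, 2], [6, 1], [4, 2], [], [], [], [4, 2], [4, 2], [4, 18], [4, 2], [4, 2]],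
  [[5, 3], [5, 26], [5, 3], [6, 26], [5, 26], [], [], [], [], [], [], [], [5, 3], [5, 3], [5, 3], [5, 3], [5, 26], [], [], [], [5, 3], [5, 3], [5, 3], [5, 26], [5, 3], [], [25, 0], [25, 0], [5, 3], [5, 3], [6, 1], [5, 3], [5, 3]],
  [[], [], [], [], [], [], [], [], [], [], [14, 16, 13, 11], [14, 15, 12, 10], [0, 10], [0, 11], [], [26, 12], [2, 13], [], [], [], [], [], [], [], [], [], [], [], [], [], [], [], []],
  [[], [], [], [], [], [], [0, 9], [], [], [11, 13, 16, 14], [], [], [], [0, 9, 14, 16], [0, 9], [26, 14], [2, 13], [], [], [], [], [], [], [], [0, 9], [], [], [], [], [], [], [0, 9], []],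
  [[], [], [], [], [], [], [0, 9], [], [], [10, 12, 15, 14], [], [], [0, 9, 14, 15], [], [0, 9], [10, 12], [2, 14], [], [], [], [], [], [], [], [0, 9], [], [], [], [], [], [], [0, 9], []],
  [[15, 16, 13, 11], [], [], [], [1, 9], [1, 9], [2, 9], [1, 6], [1, 6], [10, 0], [], [15, 14, 9, 0], [], [10, 11], [18, 9], [], [2, 13], [], [], [], [17, 9], [17, 9], [18, 9], [2, 9], [10, 21], [], [], [], [25, 9], [25, 9], [2, 9], [10, 28], [18, 9]],
  [[16, 15, 12, 10], [], [], [], [1, 9], [1, 9], [2, 9], [1, 6], [1, 6], [11, 0], [16, 14, 9, 0], [], [11, 10], [], [18, 9], [26, 12], [], [], [], [], [17, 9], [17, 9], [18, 9], [2, 9], [11, 21], [], [], [], [25, 9], [25, 9], [2, 9], [11, 28], [18, 9]],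
  [[15, 18], [], [], [], [1, 10], [1, 10], [2, 18], [1, 6], [1, 6], [], [9, 0], [9, 0], [9, 18], [9, 18], [], [], [], [], [17, 0], [17, 0], [15, 18], [15, 19], [26, 10], [2, 10], [17, 22], [], [], [], [15, 18], [15, 18], [2, 10], [15, 18], [25, 10]],
  [[12, 10], [], [], [], [1, 9], [1, 9], [2, 9], [1, 6], [1, 6], [12, 26], [14, 26], [12, 10], [], [12, 26], [], [], [], [], [], [], [12, 10], [12, 10], [12, 10], [2, 9], [12, 26], [], [25, 0], [25, 0], [12, 10], [12, 10], [2, 9], [14, 9], [12, 10]],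
  [[13, 2], [], [1, 0], [1, 0], [1, 9], [1, 9], [14, 9], [1, 6], [1, 6], [13, 2], [13, 2], [14, 2], [13, 2], [], [], [], [], [], [], [], [13, 2], [13, 2], [13, 2], [13, 11], [13, 2], [], [], [], [13, 2], [13, 2], [13, 11], [13, 2], [13, 2]],
  [[], [], [], [], [], [], [], [], [], [], [], [], [], [], [], [], [], [], [22, 24, 21, 19], [22, 23, 20, 18], [0, 18], [0, 19], [], [2, 20], [10, 21], [], [], [], [], [], [], [], []],
  [[], [], [], [], [], [], [], [0, 17], [], [], [], [], [], [], [0, 17], [], [], [19, 21, 24, 22], [], [], [], [0, 17, 22, 24], [0, 17], [2, 22], [10, 21], [], [], [], [], [], [], [], [0, 17]],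
  [[], [], [], [], [], [], [], [0, 17], [], [], [], [], [], [], [0, 17], [], [], [18, 20, 23, 22], [], [], [0, 17, 22, 23], [], [0, 17], [2, 20], [10, 22], [], [], [], [], [], [], [], [0, 17]],
  [[23, 24, 21, 19], [], [], [], [1, 17], [1, 17], [2, 17], [1, 6], [1, 6], [], [], [], [9, 17], [9, 17], [10, 17], [9, 14], [2, 13], [18, 0], [], [23, 22, 17, 0], [], [18, 19], [26, 17], [], [10, 21], [], [], [], [25, 17], [25, 17], [2, 17], [10, 17], [18, 29]],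
  [[24, 23, 20, 18], [], [], [], [1, 17], [1, 17], [2, 17], [1, 6], [1, 6], [], [], [], [9, 17], [9, 17], [10, 17], [9, 14], [2, 13], [19, 0], [24, 22, 17, 0], [], [19, 18], [], [26, 17], [2, 20], [], [], [], [], [25, 17], [25, 17], [2, 17], [10, 17], [19, 29]],
  [[23, 26], [], [], [], [1, 18], [1, 18], [2, 18], [1, 6], [1, 6], [], [], [], [9, 18], [9, 18], [10, 26], [9, 14], [2, 13], [], [17, 0], [17, 0], [17, 26], [17, 26], [], [], [], [], [25, 0], [25, 0], [23, 26], [23, 27], [2, 18], [10, 18], [25, 30]],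
  [[20, 2], [], [1, 0], [1, 0], [1, 17], [1, 17], [10, 7], [1, 6], [1, 6], [], [], [], [9, 2], [9, 2], [10, 2], [9, 2], [9, 14], [20, 2], [22, 2], [20, 2], [], [20, 2], [], [], [], [], [], [], [20, 2], [20, 2], [20, 18], [10, 2], [20, 2]],
  [[21, 10], [], [], [], [1, 10], [1, 10], [2, 17], [1, 6], [1, 6], [], [9, 0], [9, 0], [9, 17], [9, 17], [22, 17], [9, 14], [2, 13], [21, 10], [21, 10], [22, 10], [21, 10], [], [], [], [], [], [], [], [21, 10], [21, 10], [2, 10], [21, 19], [21, 10]],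
  [[], [], [], [], [], [], [], [], [], [], [], [], [], [], [], [], [], [], [], [], [], [], [], [], [], [], [30, 32, 29, 27], [30, 31, 28, 26], [0, 26], [0, 27], [], [10, 28], [18, 29]],
  [[], [], [], [], [], [], [], [], [0, 25], [], [], [], [], [], [], [0, 25], [], [], [], [], [], [], [0, 25], [], [], [27, 29, 32, 30], [], [], [], [0, 25, 30, 32], [0, 25], [10, 30], [18, 29]],
  [[], [], [], [], [], [], [], [], [0, 25], [], [], [], [], [], [], [0, 25], [], [], [], [], [], [], [0, 25], [], [], [26, 28, 31, 30], [], [], [0, 25, 30, 31], [], [0, 25], [10, 28], [18, 30]],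
  [[31, 32, 29, 27], [], [], [], [1, 25], [1, 25], [2, 25], [1, 6], [1, 6], [], [], [], [9, 25], [9, 25], [10, 25], [9, 14], [2, 13], [], [], [], [17, 25], [17, 25], [18, 25], [2, 20], [10, 21], [26, 0], [], [31, 30, 25, 0], [], [26, 27], [2, 25], [], [18, 29]],
  [[32, 31, 28, 26], [], [], [], [1, 25], [1, 25], [2, 25], [1, 6], [1, 6], [], [], [], [9, 25], [9, 25], [10, 25], [9, 14], [2, 13], [], [], [], [17, 25], [17, 25], [18, 25], [2, 20], [10, 21], [27, 0], [32, 30, 25, 0], [], [27, 26], [], [2, 25], [10, 28], []],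
  [[31, 2], [], [1, 0], [1, 0], [1, 26], [1, 26], [10, 7], [1, 6], [1, 6], [], [], [], [9, 2], [9, 2], [10, 2], [9, 2], [9, 14], [], [], [], [17, 2], [17, 2], [18, 2], [17, 22], [10, 2], [], [25, 0], [25, 0], [25, 2], [25, 2], [], [], []],
  [[28, 10], [], [], [], [1, 10], [1, 10], [2, 25], [1, 6], [1, 6], [], [9, 0], [9, 0], [9, 25], [9, 25], [18, 15], [9, 14], [2, 13], [], [], [], [17, 10], [17, 10], [18, 10], [2, 10], [17, 22], [28, 10], [30, 10], [28, 10], [], [28, 10], [], [], []],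
  [[29, 18], [], [], [], [1, 18], [1, 18], [2, 18], [1, 6], [1, 6], [], [], [], [9, 18], [9, 18], [10, 25], [9, 14], [2, 13], [], [17, 0], [17, 0], [17, 25], [17, 25], [30, 25], [2, 20], [10, 21], [29, 18], [29, 18], [30, 18], [29, 18], [], [], [], []]]

/-- the row of `v` -/
def row (v : ℕ) : ℕ := rows.getD v 0

/-- the neighbours of `v` -/
def nb (v : ℕ) : List ℕ := nbs.getD v []

/-- the row of `v` in the complement -/
def crow (v : ℕ) : ℕ := crows.getD v 0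

/-- the neighbours of `v` in the complement -/
def cnb (v : ℕ) : List ℕ := cnbs.getD v []

/-- the lengths of chordless cycles of the graph are `4` and `6` -/
def okG (k : ℕ) : Bool := Nat.beq k 3 || Nat.beq k 4 || Nat.beq k 6

/-- the length of chordless cycles of the complement is `4` -/
def okC (k : ℕ) : Bool := Nat.ble k 4

theorem chkG : chk 33 row nb okG = true := by decide +kernel

theorem chkC : chk 33 crow cnb okC = true := by decide +kernel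

end Pool.Agent.H59.ERC
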