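import Mathlib

/-!
# MP_816b90_co: a checker for the lengths of the chordless cycles of a graph

The graph is given by the bit masks `R v` of its rows and by the lists `L v` of neighbours.
-/

set_option autoImplicit false

namespace Pool.Agent.H59.ERC

/-- the bit `u` of `m` -/
def tb (m u : ℕ) : Bool := Nat.beq (Nat.mod (Nat.shiftRight m u) 2) 1

theorem tb_eq (m u : ℕ) : tb m u = m.testBit u := by
  have h : m.testBit u = decide (m / 2 ^ u % 2 = 1) := Nat.testBit_eq_decide_div_mod_eq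
  have e : Nat.mod (Nat.shiftRight m u) 2 = m / 2 ^ u % 2 := by
    show (m >>> u) % 2 = m / 2 ^ u % 2
    rw [Nat.shiftRight_eq_div_pow]
  unfold tb
  rw [h, e, Bool.eq_iff_iff]
  simp

/-- `len` is the number of vertices of the cycle which is closed by the next vertex -/
def go (R : ℕ → ℕ) (L : ℕ → List ℕ) (ok : ℕ → Bool) (s : ℕ) : ℕ → ℕ → ℕ → ℕ → Bool
  | 0, _, _, _ => false
  | f + 1, v, forb, len => (L v).all fun u =>
      cond (tb forb u) true (cond (tb (R s) u) (ok len) (go R L ok s f u (Nat.lor forb (R v)) (len + 1)))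

/-- the check -/
def chk (n : ℕ) (R : ℕ → ℕ) (L : ℕ → List ℕ) (ok : ℕ → Bool) : Bool :=
  (List.range n).all fun s => (L s).all fun v => go R L ok s n v (Nat.lor (2 ^ s) (2 ^ v)) 3

/-- a chordless cycle `f 0, .., f (k - 1)` in the graph with the adjacency `A` -/
structure Cyc (A : ℕ → ℕ → Prop) (k : ℕ) (f : ℕ → ℕ) : Prop where
  inj : ∀ i j, i < j → j < k → f i ≠ f j
  adj : ∀ i j, i < j → j < k → (A (f i) (f j) ↔ i + 1 = j ∨ (i = 0 ∧ j + 1 = k))

theorem go_sound {n : ℕ} {R : ℕ → ℕ} {L : ℕ → List ℕ} {ok : ℕ → Bool} {A : ℕ → ℕ → Prop}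
    (hR : ∀ a b, a < n → b < n → ((R a).testBit b = true ↔ A a b))
    (hL : ∀ a b, a < n → b < n → A a b → b ∈ L a)
    {k : ℕ} {f : ℕ → ℕ} (hk : 4 ≤ k) (hf : ∀ i, i < k → f i < n) (hc : Cyc A k f) :
    ∀ fuel i forb, go R L ok (f 0) fuel (f i) forb (i + 2) = true → 1 ≤ i → i + 2 ≤ k →
      (∀ t, i < t → t < k → forb.testBit (f t) = false) → ok k = true := by
  intro fuel
  induction fuel with
  | zero => intro i forb h; simp [go] at h
  | succ fuel ih =>
    intro i forb h hi hik hforb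
    have hadj : A (f i) (f (i + 1)) := (hc.adj i (i + 1) (by omega) (by omega)).2 (Or.inl rfl)
    have hmem : f (i + 1) ∈ L (f i) := hL _ _ (hf i (by omega)) (hf (i + 1) (by omega)) hadj
    have h1 : (L (f i)).all (fun u => cond (tb forb u) true (cond (tb (R (f 0)) u) (ok (i + 2))
      (go R L ok (f 0) fuel u (Nat.lor forb (R (f i))) (i + 2 + 1)))) = true := h
    rw [List.all_eq_true] at h1
    have h2 := h1 _ hmem
    rw [tb_eq, hforb (i + 1) (by omega) (by omega), cond_false, tb_eq] at h2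
    by_cases e : i + 2 = k
    · have h3 : (R (f 0)).testBit (f (i + 1)) = true := by
        rw [hR _ _ (hf 0 (by omega)) (hf (i + 1) (by omega))]
        exact (hc.adj 0 (i + 1) (by omega) (by omega)).2 (Or.inr ⟨rfl, by omega⟩)
      rw [h3, cond_true, e] at h2
      exact h2
    · have h3 : (R (f 0)).testBit (f (i + 1)) = false := by
        rw [← Bool.not_eq_true, hR _ _ (hf 0 (by omega)) (hf (i + 1) (by omega)),
          hc.adj 0 (i + 1) (by omega) (by omega)]
        omega
      rw [h3, cond_false] at h2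
      refine ih (i + 1) _ h2 (by omega) (by omega) ?_
      intro t ht htk
      have e1 : (Nat.lor forb (R (f i))).testBit (f t) =
          (forb.testBit (f t) || (R (f i)).testBit (f t)) := Nat.testBit_or _ _ _
      rw [e1, hforb t (by omega) htk, Bool.false_or, ← Bool.not_eq_true,
        hR _ _ (hf i (by omega)) (hf t htk), hc.adj i t (by omega) htk]
      omega

theorem chk_sound {n : ℕ} {R : ℕ → ℕ} {L : ℕ → List ℕ} {ok : ℕ → Bool} {A : ℕ → ℕ → Prop}
    (hR : ∀ a b, a < n → b < n → ((R a).testBit b = true ↔ A a b))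
    (hL : ∀ a b, a < n → b < n → A a b → b ∈ L a) (h : chk n R L ok = true)
    {k : ℕ} {f : ℕ → ℕ} (hk : 4 ≤ k) (hf : ∀ i, i < k → f i < n) (hc : Cyc A k f) :
    ok k = true := by
  unfold chk at h
  rw [List.all_eq_true] at h
  have h1 := h (f 0) (List.mem_range.2 (hf 0 (by omega)))
  rw [List.all_eq_true] at h1
  have hadj : A (f 0) (f 1) := (hc.adj 0 1 (by omega) (by omega)).2 (Or.inl rfl)
  have h2 := h1 (f 1) (hL _ _ (hf 0 (by omega)) (hf 1 (by omega)) hadj)
  refine go_sound hR hL hk hf hc n 1 _ h2 le_rfl (by omega) ?_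
  intro t ht htk
  have e1 : (Nat.lor (2 ^ f 0) (2 ^ f 1)).testBit (f t) =
      ((2 ^ f 0).testBit (f t) || (2 ^ f 1).testBit (f t)) := Nat.testBit_or _ _ _
  rw [e1, Nat.testBit_two_pow_of_ne (hc.inj 0 t (by omega) htk),
    Nat.testBit_two_pow_of_ne (hc.inj 1 t ht htk)]
  rfl

end Pool.Agent.H59.ERC
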