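import Pool.Agent.H59.ERC.Graph

/-!
# MP_816b90_co: the graph with 33 vertices has no even pair
-/

set_option autoImplicit false
set_option maxRecDepth 100000

namespace Pool.Agent.H59.ERC

/-- a sequence of vertices is a walk -/
theorem walk_of {V : Type} {H : SimpleGraph V} (m : ℕ) :
    ∀ f : ℕ → V, (∀ i, i < m → H.Adj (f i) (f (i + 1))) →
      ∃ p : H.Walk (f 0) (f m), p.length = m ∧ ∀ i, i ≤ m → p.getVert i = f i := by
  induction m with
  | zero =>
    intro f _
    refine ⟨SimpleGraph.Walk.nil, rfl, ?_⟩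
    intro i hi
    have : i = 0 := by omega
    subst this; rfl
  | succ m ih =>
    intro f hf
    obtain ⟨p, hl, hg⟩ := ih (fun i => f (i + 1)) (fun i hi => hf (i + 1) (by omega))
    refine ⟨SimpleGraph.Walk.cons (hf 0 (by omega)) p, by simp [hl], ?_⟩
    intro i hi
    rcases i with _ | i
    · simp
    · rw [SimpleGraph.Walk.getVert_cons_succ]
      exact hg i (by omega)

/-- the pair `x`, `y` is even in the sense of the statement -/
def EvS {V : Type} (H : SimpleGraph V) (x y : V) : Prop :=
  ∀ p : H.Walk x y, p.IsPath →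
    (∀ i j : ℕ, i + 1 < j → j ≤ p.length → ¬ H.Adj (p.getVert i) (p.getVert j)) →
    p.length % 2 = 0

theorem not_ev {V : Type} {H : SimpleGraph V} (m : ℕ) (f : ℕ → V) (hm : m % 2 = 1)
    (hi : ∀ i j, i < j → j ≤ m → f i ≠ f j)
    (ha : ∀ i, i < m → H.Adj (f i) (f (i + 1)))
    (hn : ∀ i j, i + 1 < j → j ≤ m → ¬ H.Adj (f i) (f j)) : ¬ EvS H (f 0) (f m) := by
  intro h
  obtain ⟨p, hl, hg⟩ := walk_of m f ha
  have hp : p.IsPath := by
    rw [← SimpleGraph.Walk.IsPath.getVert_injOn_iff]
    intro i hi' j hj' e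
    have hi2 : i ≤ m := by rw [← hl]; exact hi'
    have hj2 : j ≤ m := by rw [← hl]; exact hj'
    rw [hg i hi2, hg j hj2] at e
    rcases lt_trichotomy i j with h1 | h1 | h1
    · exact absurd e (hi i j h1 hj2)
    · exact h1
    · exact absurd e.symm (hi j i h1 hi2)
  have := h p hp (by
    intro i j hij hj
    rw [hl] at hj
    rw [hg i (by omega), hg j hj]
    exact hn i j hij hj)
  omega

/-- checks a path with `m` edges, given by the list of its vertices -/
def okl (l : List ℕ) : Bool :=
  (List.range l.length).all fun j => Nat.blt (l.getD j 0) 33 && (List.range j).all fun i =>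
    Bool.not (Nat.beq (l.getD i 0) (l.getD j 0)) &&
      (tb (row (l.getD i 0)) (l.getD j 0) == Nat.beq (i + 1) j)

/-- the check of the table -/
def ckc : Bool := (List.range 33).all fun x => (List.range 33).all fun y =>
  Nat.beq x y || (tb (row x) y || (Nat.beq (((cert.getD x []).getD y []).length % 2) 0 &&
    okl (x :: (((cert.getD x []).getD y []) ++ [y]))))

theorem ckc_true : ckc = true := by decide +kernel

theorem okl_sound {l : List ℕ} (h : okl l = true) :
    (∀ j, j < l.length → l.getD j 0 < 33) ∧ ∀ i j, i < j → j < l.length →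
      l.getD i 0 ≠ l.getD j 0 ∧ (Ad (l.getD i 0) (l.getD j 0) ↔ i + 1 = j) := by
  unfold okl at h
  rw [List.all_eq_true] at h
  constructor
  · intro j hj
    have h1 := h j (List.mem_range.2 hj)
    rw [Bool.and_eq_true] at h1
    have h2 := h1.1
    rw [Nat.blt_eq] at h2
    exact h2
  · intro i j hij hj
    have h1 := h j (List.mem_range.2 hj)
    rw [Bool.and_eq_true, List.all_eq_true] at h1
    have h2 := h1.2 i (List.mem_range.2 hij)
    rw [Bool.and_eq_true, Bool.not_eq_true', beq_iff_eq] at h2
    constructor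
    · intro e
      rw [e] at h2
      simp at h2
    · unfold Ad
      rw [h2.2, Nat.beq_eq]

theorem no_even_pair {x y : Fin 33} (hxy : x ≠ y) (hna : ¬ G.Adj x y) : ¬ EvS G x y := by
  have h := ckc_true
  unfold ckc at h
  rw [List.all_eq_true] at h
  have h1 := h x.val (List.mem_range.2 x.isLt)
  rw [List.all_eq_true] at h1
  have h2 := h1 y.val (List.mem_range.2 y.isLt)
  rw [Bool.or_eq_true, Bool.or_eq_true, Nat.beq_eq] at h2
  rcases h2 with h2 | h2 | h2
  · exact absurd (Fin.ext h2) hxy
  · exact absurd h2 hna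
  rw [Bool.and_eq_true, Nat.beq_eq] at h2
  obtain ⟨hlen, hok⟩ := h2
  set c : List ℕ := (cert.getD x.val []).getD y.val [] with hc
  obtain ⟨hlt, hpr⟩ := okl_sound hok
  have hL : (x.val :: (c ++ [y.val])).length = c.length + 2 := by simp
  have hx : (x.val :: (c ++ [y.val])).getD 0 0 = x.val := rfl
  have hy : (x.val :: (c ++ [y.val])).getD (c.length + 1) 0 = y.val := by
    rw [List.getD_cons_succ, List.getD_append_right _ _ _ _ (le_refl _)]
    simp
  rw [hL] at hlt hpr
  set l : List ℕ := x.val :: (c ++ [y.val]) with hl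
  let f : ℕ → Fin 33 := fun i => if hi : i < c.length + 2 then ⟨l.getD i 0, hlt i hi⟩ else x
  have F : ∀ i, i < c.length + 2 → (f i).val = l.getD i 0 := fun i hi => by simp [f, hi]
  have f0 : f 0 = x := Fin.ext (by rw [F 0 (by omega)]; exact hx)
  have f1 : f (c.length + 1) = y := Fin.ext (by rw [F _ (by omega)]; exact hy)
  have key := not_ev (H := G) (c.length + 1) f (by omega) ?_ ?_ ?_
  · rw [f0, f1] at key; exact key
  · intro i j hij hj e
    have e' := congrArg Fin.val e
    rw [F i (by omega), F j (by omega)] at e'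
    exact (hpr i j hij (by omega)).1 e'
  · intro i hi
    rw [G_adj, F i (by omega), F (i + 1) (by omega)]
    exact ((hpr i (i + 1) (by omega) (by omega)).2).2 rfl
  · intro i j hij hj e
    rw [G_adj, F i (by omega), F j (by omega)] at e
    have := ((hpr i j (by omega) (by omega)).2).1 e
    omega

end Pool.Agent.H59.ERC
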