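import Pool.Agent.H59.ERC.Data

/-!
# MP_816b90_co: the graph with 33 vertices has no odd hole and no antihole
-/

set_option autoImplicit false
set_option maxRecDepth 100000

namespace Pool.Agent.H59.ERC

/-- adjacency -/
def Ad (a b : ℕ) : Prop := tb (row a) b = true

/-- adjacency in the complement -/
def Co (a b : ℕ) : Prop := a ≠ b ∧ ¬ Ad a b

instance (a b : ℕ) : Decidable (Ad a b) := inferInstanceAs (Decidable (_ = true))

/-- the basic facts on the data -/
def base : Bool := (List.range 33).all fun a => (List.range 33).all fun b =>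
  (Bool.not (tb (row a) b) || (nb a).contains b) &&
  (tb (row a) b == tb (row b) a) &&
  (Bool.not (tb (row a) b) || Bool.not (Nat.beq a b)) &&
  (tb (crow a) b == (Bool.not (Nat.beq a b) && Bool.not (tb (row a) b))) &&
  (Bool.not (tb (crow a) b) || (cnb a).contains b)

theorem base_true : base = true := by decide +kernel

theorem base_at {a b : ℕ} (ha : a < 33) (hb : b < 33) :
    (Ad a b → b ∈ nb a) ∧ (Ad a b ↔ Ad b a) ∧ (Ad a b → a ≠ b) ∧
      (tb (crow a) b = true ↔ Co a b) ∧ (Co a b → b ∈ cnb a) := by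
  have h := base_true
  unfold base at h
  rw [List.all_eq_true] at h
  have h1 := h a (List.mem_range.2 ha)
  rw [List.all_eq_true] at h1
  have h2 := h1 b (List.mem_range.2 hb)
  simp only [Bool.and_eq_true, Bool.or_eq_true, Bool.not_eq_true', beq_iff_eq,
    List.contains_iff_mem] at h2
  obtain ⟨⟨⟨⟨k1, k2⟩, k3⟩, k4⟩, k5⟩ := h2
  have hco : tb (crow a) b = true ↔ Co a b := by
    have hbe : a.beq b = false ↔ a ≠ b := by
      rw [← Bool.not_eq_true, Nat.beq_eq]
    rw [k4, Bool.and_eq_true, Bool.not_eq_true', Bool.not_eq_true', hbe]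
    unfold Co Ad
    rw [Bool.not_eq_true]
  refine ⟨?_, ?_, ?_, hco, ?_⟩
  · intro h
    rcases k1 with k | k
    · unfold Ad at h; rw [h] at k; exact absurd k (by simp)
    · exact k
  · unfold Ad; rw [k2]
  · intro h e
    rcases k3 with k | k
    · unfold Ad at h; rw [h] at k; exact absurd k (by simp)
    · rw [e] at k; simp at k
  · intro h
    rcases k5 with k | k
    · rw [hco.2 h] at k; exact absurd k (by simp)
    · exact k

theorem Ad.symm' {a b : ℕ} (ha : a < 33) (hb : b < 33) (h : Ad a b) : Ad b a :=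
  ((base_at ha hb).2.1).1 h

/-- the graph -/
def G : SimpleGraph (Fin 33) where
  Adj a b := Ad a.val b.val
  symm := ⟨fun a b h => Ad.symm' a.isLt b.isLt h⟩
  loopless := ⟨fun a h => (base_at a.isLt a.isLt).2.2.1 h rfl⟩

theorem G_adj {a b : Fin 33} : G.Adj a b ↔ Ad a.val b.val := Iff.rfl

/-- chordless cycles of the graph -/
theorem cyc_G {k : ℕ} {f : ℕ → ℕ} (hk : 4 ≤ k) (hf : ∀ i, i < k → f i < 33) (hc : Cyc Ad k f) :
    k = 4 ∨ k = 6 := by
  have h := chk_sound (R := row) (L := nb) (A := Ad)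
    (fun a b _ _ => by unfold Ad; rw [tb_eq]) (fun a b ha hb h => (base_at ha hb).1 h) chkG hk hf hc
  unfold okG at h
  simp only [Bool.or_eq_true, Nat.beq_eq] at h
  omega

/-- chordless cycles of the complement -/
theorem cyc_C {k : ℕ} {f : ℕ → ℕ} (hk : 4 ≤ k) (hf : ∀ i, i < k → f i < 33) (hc : Cyc Co k f) :
    k = 4 := by
  have h := chk_sound (R := crow) (L := cnb) (A := Co)
    (fun a b ha hb => by rw [← tb_eq]; exact (base_at ha hb).2.2.2.1)
    (fun a b ha hb h => (base_at ha hb).2.2.2.2 h) chkC hk hf hc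
  unfold okC at h
  have := Nat.le_of_ble_eq_true h
  omega

/-- adjacency in a cycle -/
theorem cg_adj {k : ℕ} (hk : 3 ≤ k) {i j : ℕ} (hij : i < j) (hj : j < k) :
    (SimpleGraph.cycleGraph k).Adj ⟨i, by omega⟩ ⟨j, hj⟩ ↔ i + 1 = j ∨ (i = 0 ∧ j + 1 = k) := by
  rw [SimpleGraph.cycleGraph_adj', Fin.val_sub, Fin.val_sub]
  show (k - j + i) % k = 1 ∨ (k - i + j) % k = 1 ↔ _
  have h1 : (k - j + i) % k = k - j + i := Nat.mod_eq_of_lt (by omega)
  have h2 : (k - i + j) % k = j - i := by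
    have : k - i + j = (j - i) + k := by omega
    rw [this, Nat.add_mod_right, Nat.mod_eq_of_lt (by omega)]
  rw [h1, h2]
  omega

theorem no_hole {k : ℕ} (hk : 5 ≤ k) (hodd : k % 2 = 1) :
    ¬ Nonempty (SimpleGraph.cycleGraph k ↪g G) := by
  rintro ⟨e⟩
  have hlt : ∀ i, i % k < k := fun i => Nat.mod_lt _ (by omega)
  have hv : ∀ i, i < k → (⟨i % k, hlt i⟩ : Fin k) = ⟨i % k, hlt i⟩ := fun _ _ => rfl
  have := cyc_G (k := k) (f := fun i => (e ⟨i % k, hlt i⟩).val) (by omega)
    (fun i _ => (e ⟨i % k, hlt i⟩).isLt) ⟨?_, ?_⟩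
  · omega
  · intro i j hij hj h
    have h1 := e.injective (Fin.val_injective h)
    have h2 := congrArg Fin.val h1
    simp only [Nat.mod_eq_of_lt hj, Nat.mod_eq_of_lt (show i < k by omega)] at h2
    omega
  · intro i j hij hj
    have e1 : (⟨i % k, hlt i⟩ : Fin k) = ⟨i, by omega⟩ := Fin.ext (Nat.mod_eq_of_lt (by omega))
    have e2 : (⟨j % k, hlt j⟩ : Fin k) = ⟨j, hj⟩ := Fin.ext (Nat.mod_eq_of_lt hj)
    show Ad (e ⟨i % k, hlt i⟩).val (e ⟨j % k, hlt j⟩).val ↔ _
    rw [e1, e2, ← G_adj, e.map_adj_iff, cg_adj (by omega) hij hj]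

theorem no_antihole {k : ℕ} (hk : 5 ≤ k) :
    ¬ Nonempty ((SimpleGraph.cycleGraph k)ᶜ ↪g G) := by
  rintro ⟨e⟩
  have hlt : ∀ i, i % k < k := fun i => Nat.mod_lt _ (by omega)
  have := cyc_C (k := k) (f := fun i => (e ⟨i % k, hlt i⟩).val) (by omega)
    (fun i _ => (e ⟨i % k, hlt i⟩).isLt) ⟨?_, ?_⟩
  · omega
  · intro i j hij hj h
    have h1 := e.injective (Fin.val_injective h)
    have h2 := congrArg Fin.val h1
    simp only [Nat.mod_eq_of_lt hj, Nat.mod_eq_of_lt (show i < k by omega)] at h2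
    omega
  · intro i j hij hj
    have e1 : (⟨i % k, hlt i⟩ : Fin k) = ⟨i, by omega⟩ := Fin.ext (Nat.mod_eq_of_lt (by omega))
    have e2 : (⟨j % k, hlt j⟩ : Fin k) = ⟨j, hj⟩ := Fin.ext (Nat.mod_eq_of_lt hj)
    have hne : (⟨i, by omega⟩ : Fin k) ≠ ⟨j, hj⟩ := by
      intro h
      have := congrArg Fin.val h
      simp only at this
      omega
    have hne' : (e ⟨i, by omega⟩).val ≠ (e ⟨j, hj⟩).val := fun h =>
      hne (e.injective (Fin.val_injective h))
    show Co (e ⟨i % k, hlt i⟩).val (e ⟨j % k, hlt j⟩).val ↔ _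
    rw [e1, e2]
    unfold Co
    rw [← G_adj, e.map_adj_iff, SimpleGraph.compl_adj, cg_adj (by omega) hij hj]
    constructor
    · rintro ⟨_, h⟩
      by_contra h'
      exact h ⟨hne, h'⟩
    · intro h
      exact ⟨hne', fun h' => h'.2 h⟩

end Pool.Agent.H59.ERC
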