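import Pool.Agent.H59.ERC.Graph

/-!
# MP_816b90_co: the graph with 33 vertices has no odd prism
-/

set_option autoImplicit false
set_option maxRecDepth 100000

namespace Pool.Agent.H59.ERC

/-- the neighbourhood of three vertices -/
def m3 (a b c : ℕ) : ℕ := Nat.lor (Nat.lor (row a) (row b)) (row c)

/-- the neighbourhood of four vertices -/
def m4 (a b c d : ℕ) : ℕ := Nat.lor (Nat.lor (row a) (row b)) (Nat.lor (row c) (row d))

/-- there is no prism with rungs `a b`, `a' b'` and `p c d q` -/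
def ck3 : Bool := (List.range 33).all fun p => (nb p).all fun c => (nb c).all fun d =>
  cond (tb (row p) d) true ((nb d).all fun q =>
    cond (tb (Nat.lor (row p) (row c)) q) true
      ((nb p).all fun a => cond (tb (m3 c d q) a) true
        ((nb a).all fun b => cond (Bool.not (tb (row q) b)) true (cond (tb (m3 c d p) b) true
          ((nb a).all fun a' => cond (Bool.not (tb (row p) a')) true (cond (tb (m4 c d q b) a') true
            ((nb a').all fun b' => cond (Bool.not (tb (row q) b')) true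
              (cond (Bool.not (tb (row b) b')) true (tb (m4 c d p a) b')))))))))

theorem ck3_true : ck3 = true := by decide +kernel

theorem tb_lor (a b u : ℕ) : tb (Nat.lor a b) u = (tb a u || tb b u) := by
  rw [tb_eq, tb_eq, tb_eq]; exact Nat.testBit_or _ _ _

theorem no113 {p c d q a b a' b' : ℕ} (hp : p < 33) (hc : c < 33) (hd : d < 33) (hq : q < 33)
    (ha : a < 33) (hb : b < 33) (ha' : a' < 33) (hb' : b' < 33)
    (pc : Ad p c) (cd : Ad c d) (pd : ¬ Ad p d) (dq : Ad d q) (pq : ¬ Ad p q) (cq : ¬ Ad c q)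
    (pa : Ad p a) (ca : ¬ Ad c a) (da : ¬ Ad d a) (qa : ¬ Ad q a)
    (ab : Ad a b) (qb : Ad q b) (cb : ¬ Ad c b) (db : ¬ Ad d b) (pb : ¬ Ad p b)
    (aa : Ad a a') (pa' : Ad p a') (ca' : ¬ Ad c a') (da' : ¬ Ad d a') (qa' : ¬ Ad q a')
    (ba' : ¬ Ad b a') (ab' : Ad a' b') (qb' : Ad q b') (bb : Ad b b') (cb' : ¬ Ad c b')
    (db' : ¬ Ad d b') (pb' : ¬ Ad p b') (ab2 : ¬ Ad a b') : False := by
  have h := ck3_true
  unfold ck3 at h
  have B : ∀ {x y : ℕ}, ¬ Ad x y → tb (row x) y = false := fun {x y} h => by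
    rw [← Bool.not_eq_true]; exact h
  have T : ∀ {x y : ℕ}, Ad x y → tb (row x) y = true := fun {x y} h => h
  rw [List.all_eq_true] at h
  have h := h p (List.mem_range.2 hp)
  rw [List.all_eq_true] at h
  have h := h c ((base_at hp hc).1 pc)
  rw [List.all_eq_true] at h
  have h := h d ((base_at hc hd).1 cd)
  rw [B pd, cond_false, List.all_eq_true] at h
  have h := h q ((base_at hd hq).1 dq)
  rw [tb_lor, B pq, B cq, Bool.or_false, cond_false, List.all_eq_true] at h
  have h := h a ((base_at hp ha).1 pa)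
  have e1 : tb (m3 c d q) a = false := by
    unfold m3; rw [tb_lor, tb_lor, B ca, B da, B qa]; rfl
  rw [e1, cond_false, List.all_eq_true] at h
  have h := h b ((base_at ha hb).1 ab)
  have e2 : tb (m3 c d p) b = false := by
    unfold m3; rw [tb_lor, tb_lor, B cb, B db, B pb]; rfl
  rw [T qb, e2, Bool.not_true, cond_false, cond_false, List.all_eq_true] at h
  have h := h a' ((base_at ha ha').1 aa)
  have e3 : tb (m4 c d q b) a' = false := by
    unfold m4; rw [tb_lor, tb_lor, tb_lor, B ca', B da', B qa', B ba']; rfl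
  rw [T pa', e3, Bool.not_true, cond_false, cond_false, List.all_eq_true] at h
  have h := h b' ((base_at ha' hb').1 ab')
  have e4 : tb (m4 c d p a) b' = false := by
    unfold m4; rw [tb_lor, tb_lor, tb_lor, B cb', B db', B pb', B ab2]; rfl
  rw [T qb', T bb, e4] at h
  exact absurd h (by decide)

/-- a prism in index form -/
structure Pr (n : Fin 3 → ℕ) (g : Fin 3 → ℕ → ℕ) : Prop where
  lt : ∀ i a, a ≤ n i → g i a < 33
  inj : ∀ i j a b, a ≤ n i → b ≤ n j → g i a = g j b → i = j ∧ a = b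
  adj : ∀ i j a b, a ≤ n i → b ≤ n j → (Ad (g i a) (g j b) ↔
    (i = j ∧ (a + 1 = b ∨ b + 1 = a)) ∨ (i ≠ j ∧ ((a = 0 ∧ b = 0) ∨ (a = n i ∧ b = n j))))

theorem Pr.two {n : Fin 3 → ℕ} {g : Fin 3 → ℕ → ℕ} (h : Pr n g) {i j : Fin 3} (hij : i ≠ j)
    (hi : 1 ≤ n i) (hj : 1 ≤ n j) : n i + n j + 2 = 4 ∨ n i + n j + 2 = 6 := by
  let F : ℕ → ℕ := fun x => if x ≤ n i then g i x else g j (n i + 1 + n j - x)
  have F1 : ∀ x, x ≤ n i → F x = g i x := fun x hx => by simp [F, hx]
  have F2 : ∀ x, ¬ x ≤ n i → F x = g j (n i + 1 + n j - x) := fun x hx => by simp [F, hx]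
  refine cyc_G (k := n i + n j + 2) (f := F) (by omega) ?_ ⟨?_, ?_⟩
  · intro x hx
    by_cases hxi : x ≤ n i
    · rw [F1 x hxi]; exact h.lt i x hxi
    · rw [F2 x hxi]; exact h.lt j _ (by omega)
  · intro x y hxy hy e
    by_cases hxi : x ≤ n i <;> by_cases hyi : y ≤ n i
    · rw [F1 x hxi, F1 y hyi] at e
      have := (h.inj i i x y hxi hyi e).2; omega
    · rw [F1 x hxi, F2 y hyi] at e
      exact hij (h.inj i j _ _ hxi (by omega) e).1
    · omega
    · rw [F2 x hxi, F2 y hyi] at e
      have := (h.inj j j _ _ (by omega) (by omega) e).2; omega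
  · intro x y hxy hy
    by_cases hxi : x ≤ n i <;> by_cases hyi : y ≤ n i
    · rw [F1 x hxi, F1 y hyi, h.adj i i x y hxi hyi]
      constructor
      · rintro (⟨_, e⟩ | ⟨e, _⟩)
        · omega
        · exact absurd rfl e
      · intro e; exact Or.inl ⟨rfl, by omega⟩
    · rw [F1 x hxi, F2 y hyi, h.adj i j _ _ hxi (by omega)]
      constructor
      · rintro (⟨e, _⟩ | ⟨_, e⟩)
        · exact absurd e hij
        · omega
      · intro e; exact Or.inr ⟨hij, by omega⟩
    · omega
    · rw [F2 x hxi, F2 y hyi, h.adj j j _ _ (by omega) (by omega)]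
      constructor
      · rintro (⟨_, e⟩ | ⟨e, _⟩)
        · omega
        · exact absurd rfl e
      · intro e; exact Or.inl ⟨rfl, by omega⟩

/-- three rungs of length one: an antihole with six vertices -/
theorem Pr.no111 {n : Fin 3 → ℕ} {g : Fin 3 → ℕ → ℕ} (h : Pr n g) (hn : ∀ i, n i = 1) :
    False := by
  let F : ℕ → ℕ := fun x => if x = 0 then g 0 0 else if x = 1 then g 1 1 else if x = 2 then g 2 0
    else if x = 3 then g 0 1 else if x = 4 then g 1 0 else g 2 1
  have A : ∀ i j a b, a ≤ 1 → b ≤ 1 → (Ad (g i a) (g j b) ↔ (i = j ∧ a ≠ b) ∨ (i ≠ j ∧ a = b)) := by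
    intro i j a b ha hb
    rw [h.adj i j a b (by rw [hn]; exact ha) (by rw [hn]; exact hb), hn, hn]
    constructor
    · rintro (⟨e, e'⟩ | ⟨e, e'⟩)
      · exact Or.inl ⟨e, by omega⟩
      · exact Or.inr ⟨e, by omega⟩
    · rintro (⟨e, e'⟩ | ⟨e, e'⟩)
      · exact Or.inl ⟨e, by omega⟩
      · exact Or.inr ⟨e, by omega⟩
  have I : ∀ i j a b, a ≤ 1 → b ≤ 1 → (g i a = g j b ↔ i = j ∧ a = b) := by
    intro i j a b ha hb
    constructor
    · intro e; exact h.inj i j a b (by rw [hn]; exact ha) (by rw [hn]; exact hb) e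
    · rintro ⟨rfl, rfl⟩; rfl
  have := cyc_C (k := 6) (f := F) (by omega) ?_ ⟨?_, ?_⟩
  · omega
  · intro x hx
    have L : ∀ i a, a ≤ 1 → g i a < 33 := fun i a ha => h.lt i a (by rw [hn]; exact ha)
    interval_cases x <;> simp only [F] <;> simp <;> apply L <;> omega
  · intro x y hxy hy
    interval_cases y <;> interval_cases x <;> simp [F, I]
  · intro x y hxy hy
    interval_cases y <;> interval_cases x <;> simp [F, I, A, Co]

/-- the lengths -/
theorem Pr.false {n : Fin 3 → ℕ} {g : Fin 3 → ℕ → ℕ} (h : Pr n g) (hn : ∀ i, n i % 2 = 1) :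
    False := by
  have pos : ∀ i, 1 ≤ n i := fun i => by have := hn i; omega
  have key : ∀ i j m : Fin 3, i ≠ j → i ≠ m → j ≠ m → n i = 1 → n j = 1 → n m = 3 → False := by
    intro i j m hij him hjm ni nj nm
    have L : ∀ i a, a ≤ n i → g i a < 33 := h.lt
    have Y : ∀ i j a b, a ≤ n i → b ≤ n j → ((i = j ∧ (a + 1 = b ∨ b + 1 = a)) ∨
        (i ≠ j ∧ ((a = 0 ∧ b = 0) ∨ (a = n i ∧ b = n j)))) → Ad (g i a) (g j b) :=
      fun i j a b ha hb e => (h.adj i j a b ha hb).2 e
    have N : ∀ i j a b, a ≤ n i → b ≤ n j → ¬ ((i = j ∧ (a + 1 = b ∨ b + 1 = a)) ∨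
        (i ≠ j ∧ ((a = 0 ∧ b = 0) ∨ (a = n i ∧ b = n j)))) → ¬ Ad (g i a) (g j b) :=
      fun i j a b ha hb e e' => e ((h.adj i j a b ha hb).1 e')
    have S : ∀ i a b, a ≤ n i → b ≤ n i → (a + 1 = b ∨ b + 1 = a) → Ad (g i a) (g i b) :=
      fun i a b ha hb e => Y i i a b ha hb (Or.inl ⟨rfl, e⟩)
    have S' : ∀ i a b, a ≤ n i → b ≤ n i → ¬ (a + 1 = b ∨ b + 1 = a) → ¬ Ad (g i a) (g i b) := by
      intro i a b ha hb e
      refine N i i a b ha hb ?_
      rintro (⟨_, e'⟩ | ⟨e', _⟩)
      · exact e e'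
      · exact e' rfl
    have C : ∀ i j a b, i ≠ j → a ≤ n i → b ≤ n j → ((a = 0 ∧ b = 0) ∨ (a = n i ∧ b = n j)) →
        Ad (g i a) (g j b) := fun i j a b hij ha hb e => Y i j a b ha hb (Or.inr ⟨hij, e⟩)
    have C' : ∀ i j a b, i ≠ j → a ≤ n i → b ≤ n j → ¬ ((a = 0 ∧ b = 0) ∨ (a = n i ∧ b = n j)) →
        ¬ Ad (g i a) (g j b) := by
      intro i j a b hij ha hb e
      refine N i j a b ha hb ?_
      rintro (⟨e', _⟩ | ⟨_, e'⟩)
      · exact hij e'
      · exact e e'
    refine no113 (p := g m 0) (c := g m 1) (d := g m 2) (q := g m 3) (a := g i 0) (b := g i 1)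
      (a' := g j 0) (b' := g j 1) ?_ ?_ ?_ ?_ ?_ ?_ ?_ ?_ ?_ ?_ ?_ ?_ ?_ ?_ ?_ ?_ ?_ ?_ ?_ ?_ ?_
      ?_ ?_ ?_ ?_ ?_ ?_ ?_ ?_ ?_ ?_ ?_ ?_ ?_ ?_ ?_
    · exact L _ _ (by omega)
    · exact L _ _ (by omega)
    · exact L _ _ (by omega)
    · exact L _ _ (by omega)
    · exact L _ _ (by omega)
    · exact L _ _ (by omega)
    · exact L _ _ (by omega)
    · exact L _ _ (by omega)
    · exact S m 0 1 (by omega) (by omega) (by omega)
    · exact S m 1 2 (by omega) (by omega) (by omega)
    · exact S' m 0 2 (by omega) (by omega) (by omega)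
    · exact S m 2 3 (by omega) (by omega) (by omega)
    · exact S' m 0 3 (by omega) (by omega) (by omega)
    · exact S' m 1 3 (by omega) (by omega) (by omega)
    · exact C m i 0 0 him.symm (by omega) (by omega) (by omega)
    · exact C' m i 1 0 him.symm (by omega) (by omega) (by omega)
    · exact C' m i 2 0 him.symm (by omega) (by omega) (by omega)
    · exact C' m i 3 0 him.symm (by omega) (by omega) (by omega)
    · exact S i 0 1 (by omega) (by omega) (by omega)
    · exact C m i 3 1 him.symm (by omega) (by omega) (by omega)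
    · exact C' m i 1 1 him.symm (by omega) (by omega) (by omega)
    · exact C' m i 2 1 him.symm (by omega) (by omega) (by omega)
    · exact C' m i 0 1 him.symm (by omega) (by omega) (by omega)
    · exact C i j 0 0 hij (by omega) (by omega) (by omega)
    · exact C m j 0 0 hjm.symm (by omega) (by omega) (by omega)
    · exact C' m j 1 0 hjm.symm (by omega) (by omega) (by omega)
    · exact C' m j 2 0 hjm.symm (by omega) (by omega) (by omega)
    · exact C' m j 3 0 hjm.symm (by omega) (by omega) (by omega)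
    · exact C' i j 1 0 hij (by omega) (by omega) (by omega)
    · exact S j 0 1 (by omega) (by omega) (by omega)
    · exact C m j 3 1 hjm.symm (by omega) (by omega) (by omega)
    · exact C i j 1 1 hij (by omega) (by omega) (by omega)
    · exact C' m j 1 1 hjm.symm (by omega) (by omega) (by omega)
    · exact C' m j 2 1 hjm.symm (by omega) (by omega) (by omega)
    · exact C' m j 0 1 hjm.symm (by omega) (by omega) (by omega)
    · exact C' i j 0 1 hij (by omega) (by omega) (by omega)
  have t01 := h.two (i := 0) (j := 1) (by decide) (pos 0) (pos 1)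
  have t02 := h.two (i := 0) (j := 2) (by decide) (pos 0) (pos 2)
  have t12 := h.two (i := 1) (j := 2) (by decide) (pos 1) (pos 2)
  have o0 := hn 0
  have o1 := hn 1
  have o2 := hn 2
  by_cases e0 : n 0 = 1
  · by_cases e1 : n 1 = 1
    · by_cases e2 : n 2 = 1
      · exact h.no111 fun i => by fin_cases i <;> assumption
      · exact key 0 1 2 (by decide) (by decide) (by decide) e0 e1 (by omega)
    · exact key 0 2 1 (by decide) (by decide) (by decide) e0 (by omega) (by omega)
  · exact key 1 2 0 (by decide) (by decide) (by decide) (by omega) (by omega) (by omega)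

end Pool.Agent.H59.ERC
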