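import Pool.Agent.H59.ERC.Pris

/-!
# MP_816b90_co: prisms given by walks
-/

set_option autoImplicit false

namespace Pool.Agent.H59.ERC

theorem wadj {V : Type} {H : SimpleGraph V} {a b : V} {p : H.Walk a b} (hp : p.IsPath) {i j : ℕ}
    (hi : i ≤ p.length) (hj : j ≤ p.length) :
    p.toSubgraph.Adj (p.getVert i) (p.getVert j) ↔ i + 1 = j ∨ j + 1 = i := by
  have inj : ∀ x y, x ≤ p.length → y ≤ p.length → p.getVert x = p.getVert y → x = y :=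
    fun x y hx hy e => hp.getVert_injOn hx hy e
  rw [SimpleGraph.Walk.toSubgraph_adj_iff]
  constructor
  · rintro ⟨k, hk, hkl⟩
    rw [Sym2.eq_iff] at hk
    rcases hk with ⟨e1, e2⟩ | ⟨e1, e2⟩
    · have h1 := inj _ _ (by omega) hi e1
      have h2 := inj _ _ (by omega) hj e2
      omega
    · have h1 := inj _ _ (by omega) hj e1
      have h2 := inj _ _ (by omega) hi e2
      omega
  · rintro (h | h)
    · exact ⟨i, by rw [h], by omega⟩
    · exact ⟨j, by rw [h, Sym2.eq_swap], by omega⟩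

/-- the index form -/
theorem pr_of {n : Fin 3 → ℕ} {g : Fin 3 → ℕ → Fin 33} {s : Fin 3 → Fin 33 → Fin 33 → Prop}
    (H1 : ∀ i a b, a ≤ n i → b ≤ n i → g i a = g i b → a = b)
    (H2 : ∀ i j a b, i ≠ j → a ≤ n i → b ≤ n j → g i a ≠ g j b)
    (H3 : ∀ i a b, a ≤ n i → b ≤ n i → (s i (g i a) (g i b) ↔ a + 1 = b ∨ b + 1 = a))
    (H3' : ∀ i u v, s i u v → (∃ a, a ≤ n i ∧ g i a = u) ∧ ∃ b, b ≤ n i ∧ g i b = v)
    (H4 : ∀ i j a b, a ≤ n i → b ≤ n j → (G.Adj (g i a) (g j b) ↔ (∃ k, s k (g i a) (g j b)) ∨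
      (g i a ≠ g j b ∧ (∃ k, g i a = g k 0) ∧ ∃ k, g j b = g k 0) ∨
      (g i a ≠ g j b ∧ (∃ k, g i a = g k (n k)) ∧ ∃ k, g j b = g k (n k)))) :
    Pr n (fun i a => (g i a).val) := by
  have I : ∀ i j a b, a ≤ n i → b ≤ n j → g i a = g j b → i = j ∧ a = b := by
    intro i j a b ha hb e
    by_cases h : i = j
    · subst h; exact ⟨rfl, H1 i a b ha hb e⟩
    · exact absurd e (H2 i j a b h ha hb)
  refine ⟨fun i a _ => (g i a).isLt, fun i j a b ha hb e => I i j a b ha hb (Fin.ext e), ?_⟩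
  intro i j a b ha hb
  have h4 := H4 i j a b ha hb
  rw [G_adj] at h4
  rw [h4]
  constructor
  · rintro (⟨k, hk⟩ | ⟨hne, ⟨k, hk⟩, ⟨l, hl⟩⟩ | ⟨hne, ⟨k, hk⟩, ⟨l, hl⟩⟩)
    · obtain ⟨⟨a', ha', e1⟩, ⟨b', hb', e2⟩⟩ := H3' k _ _ hk
      obtain ⟨rfl, rfl⟩ := I _ _ _ _ ha' ha e1
      obtain ⟨rfl, rfl⟩ := I _ _ _ _ hb' hb e2
      exact Or.inl ⟨rfl, (H3 k a' b' ha hb).1 hk⟩
    · obtain ⟨rfl, rfl⟩ := I _ _ _ _ ha (Nat.zero_le _) hk
      obtain ⟨rfl, rfl⟩ := I _ _ _ _ hb (Nat.zero_le _) hl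
      refine Or.inr ⟨fun e => hne (by rw [e]), Or.inl ⟨rfl, rfl⟩⟩
    · obtain ⟨rfl, rfl⟩ := I _ _ _ _ ha le_rfl hk
      obtain ⟨rfl, rfl⟩ := I _ _ _ _ hb le_rfl hl
      refine Or.inr ⟨fun e => hne (by rw [e]), Or.inr ⟨rfl, rfl⟩⟩
  · rintro (⟨rfl, e⟩ | ⟨hij, ⟨rfl, rfl⟩ | ⟨rfl, rfl⟩⟩)
    · exact Or.inl ⟨i, (H3 i a b ha hb).2 e⟩
    · exact Or.inr (Or.inl ⟨H2 i j 0 0 hij ha hb, ⟨i, rfl⟩, ⟨j, rfl⟩⟩)
    · exact Or.inr (Or.inr ⟨H2 i j _ _ hij ha hb, ⟨i, rfl⟩, ⟨j, rfl⟩⟩)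

theorem no_prism : ¬ ∃ (a1 a2 a3 b1 b2 b3 : Fin 33) (p1 : G.Walk a1 b1) (p2 : G.Walk a2 b2)
    (p3 : G.Walk a3 b3),
        p1.IsPath ∧ p2.IsPath ∧ p3.IsPath ∧
        p1.length % 2 = 1 ∧ p2.length % 2 = 1 ∧ p3.length % 2 = 1 ∧
        (∀ w : Fin 33, w ∈ p1.support → w ∉ p2.support) ∧
        (∀ w : Fin 33, w ∈ p1.support → w ∉ p3.support) ∧
        (∀ w : Fin 33, w ∈ p2.support → w ∉ p3.support) ∧
        ∀ u v : Fin 33,
          (u ∈ p1.support ∨ u ∈ p2.support ∨ u ∈ p3.support) →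
          (v ∈ p1.support ∨ v ∈ p2.support ∨ v ∈ p3.support) →
          (G.Adj u v ↔
            (p1.toSubgraph.Adj u v ∨ p2.toSubgraph.Adj u v ∨ p3.toSubgraph.Adj u v ∨
             (u ≠ v ∧ (u = a1 ∨ u = a2 ∨ u = a3) ∧ (v = a1 ∨ v = a2 ∨ v = a3)) ∨
             (u ≠ v ∧ (u = b1 ∨ u = b2 ∨ u = b3) ∧ (v = b1 ∨ v = b2 ∨ v = b3)))) := by
  rintro ⟨a1, a2, a3, b1, b2, b3, p1, p2, p3, h1, h2, h3, o1, o2, o3, d12, d13, d23, hadj⟩
  let n : Fin 3 → ℕ := ![p1.length, p2.length, p3.length]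
  let g : Fin 3 → ℕ → Fin 33 := ![p1.getVert, p2.getVert, p3.getVert]
  let s : Fin 3 → Fin 33 → Fin 33 → Prop :=
    ![p1.toSubgraph.Adj, p2.toSubgraph.Adj, p3.toSubgraph.Adj]
  have mem : ∀ {a b : Fin 33} (p : G.Walk a b) (i : ℕ), i ≤ p.length → p.getVert i ∈ p.support :=
    fun p i hi => SimpleGraph.Walk.mem_support_iff_exists_getVert.2 ⟨i, rfl, hi⟩
  have all3 : ∀ (Q : Fin 3 → Prop), Q 0 → Q 1 → Q 2 → ∀ i, Q i := by
    intro Q q0 q1 q2 i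
    fin_cases i
    · exact q0
    · exact q1
    · exact q2
  have sup : ∀ i a, a ≤ n i → (g i a ∈ p1.support ∨ g i a ∈ p2.support ∨ g i a ∈ p3.support) := by
    refine all3 _ ?_ ?_ ?_
    · intro a ha; exact Or.inl (mem p1 a ha)
    · intro a ha; exact Or.inr (Or.inl (mem p2 a ha))
    · intro a ha; exact Or.inr (Or.inr (mem p3 a ha))
  have endv : ∀ {a b : Fin 33} (p : G.Walk a b) (u v : Fin 33), p.toSubgraph.Adj u v →
      (∃ x, x ≤ p.length ∧ p.getVert x = u) ∧ ∃ y, y ≤ p.length ∧ p.getVert y = v := by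
    intro a b p u v h
    have e1 := SimpleGraph.Walk.mem_support_of_adj_toSubgraph h
    have e2 := SimpleGraph.Walk.mem_support_of_adj_toSubgraph h.symm
    obtain ⟨x, hx, hx'⟩ := SimpleGraph.Walk.mem_support_iff_exists_getVert.1 e1
    obtain ⟨y, hy, hy'⟩ := SimpleGraph.Walk.mem_support_iff_exists_getVert.1 e2
    exact ⟨⟨x, hx', hx⟩, ⟨y, hy', hy⟩⟩
  have H := pr_of (n := n) (g := g) (s := s) ?_ ?_ ?_ ?_ ?_
  · refine H.false (all3 _ o1 o2 o3)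
  · refine all3 _ ?_ ?_ ?_
    · intro a b ha hb e; exact h1.getVert_injOn ha hb e
    · intro a b ha hb e; exact h2.getVert_injOn ha hb e
    · intro a b ha hb e; exact h3.getVert_injOn ha hb e
  · have D12 : ∀ a b, a ≤ p1.length → b ≤ p2.length → p1.getVert a ≠ p2.getVert b :=
      fun a b ha hb e => d12 _ (mem p1 a ha) (e ▸ mem p2 b hb)
    have D13 : ∀ a b, a ≤ p1.length → b ≤ p3.length → p1.getVert a ≠ p3.getVert b :=
      fun a b ha hb e => d13 _ (mem p1 a ha) (e ▸ mem p3 b hb)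
    have D23 : ∀ a b, a ≤ p2.length → b ≤ p3.length → p2.getVert a ≠ p3.getVert b :=
      fun a b ha hb e => d23 _ (mem p2 a ha) (e ▸ mem p3 b hb)
    refine all3 _ (all3 _ ?_ ?_ ?_) (all3 _ ?_ ?_ ?_) (all3 _ ?_ ?_ ?_)
    · intro a b h; exact absurd rfl h
    · intro a b _ ha hb; exact D12 a b ha hb
    · intro a b _ ha hb; exact D13 a b ha hb
    · intro a b _ ha hb e; exact D12 b a hb ha e.symm
    · intro a b h; exact absurd rfl h
    · intro a b _ ha hb; exact D23 a b ha hb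
    · intro a b _ ha hb e; exact D13 b a hb ha e.symm
    · intro a b _ ha hb e; exact D23 b a hb ha e.symm
    · intro a b h; exact absurd rfl h
  · refine all3 _ ?_ ?_ ?_
    · intro a b ha hb; exact wadj h1 ha hb
    · intro a b ha hb; exact wadj h2 ha hb
    · intro a b ha hb; exact wadj h3 ha hb
  · refine all3 _ ?_ ?_ ?_
    · intro u v h; exact endv p1 u v h
    · intro u v h; exact endv p2 u v h
    · intro u v h; exact endv p3 u v h
  · intro i j a b ha hb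
    rw [hadj _ _ (sup i a ha) (sup j b hb)]
    have A : ∀ u : Fin 33, (∃ k, u = g k 0) ↔ u = a1 ∨ u = a2 ∨ u = a3 := by
      intro u
      have g0 : g 0 0 = a1 := p1.getVert_zero
      have g1 : g 1 0 = a2 := p2.getVert_zero
      have g2 : g 2 0 = a3 := p3.getVert_zero
      rw [Fin.exists_fin_succ, Fin.exists_fin_two]
      show (u = g 0 0 ∨ u = g 1 0 ∨ u = g 2 0) ↔ _
      rw [g0, g1, g2]
    have B : ∀ u : Fin 33, (∃ k, u = g k (n k)) ↔ u = b1 ∨ u = b2 ∨ u = b3 := by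
      intro u
      have g0 : g 0 (n 0) = b1 := p1.getVert_length
      have g1 : g 1 (n 1) = b2 := p2.getVert_length
      have g2 : g 2 (n 2) = b3 := p3.getVert_length
      rw [Fin.exists_fin_succ, Fin.exists_fin_two]
      show (u = g 0 (n 0) ∨ u = g 1 (n 1) ∨ u = g 2 (n 2)) ↔ _
      rw [g0, g1, g2]
    have S : ∀ u v : Fin 33, (∃ k, s k u v) ↔
        p1.toSubgraph.Adj u v ∨ p2.toSubgraph.Adj u v ∨ p3.toSubgraph.Adj u v := by
      intro u v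
      rw [Fin.exists_fin_succ, Fin.exists_fin_two]
      exact Iff.rfl
    rw [A, A, B, B, S, or_assoc, or_assoc]

end Pool.Agent.H59.ERC
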